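import Mathlib

/-!
# Lempert function, smooth boundaries, pseudoconvexity
-/

set_option autoImplicit false

open Metric Set Filter Topology
open scoped ContDiff

namespace Q72.QTI

variable {E : Type*} [NormedAddCommGroup E] [NormedSpace ℂ E]

/-- The Lempert function (without `tanh⁻¹`): the infimum of `|α|` over all holomorphic discs
`φ : 𝔻 → D` with `φ 0 = z` and `φ α = w`. -/
noncomputable def lempert (D : Set E) (z w : E) : ℝ :=
  sInf {r : ℝ | ∃ (φ : ℂ → E) (α : ℂ), DifferentiableOn ℂ φ (ball 0 1) ∧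
    MapsTo φ (ball 0 1) D ∧ ‖α‖ < 1 ∧ φ 0 = z ∧ φ α = w ∧ r = ‖α‖}

/-- `D` has a `C^∞`-smooth boundary: near each boundary point `D = {ρ < 0}` with `ρ` of class
`C^∞` and with nonvanishing differential on the boundary. -/
def HasSmoothBoundary [NormedSpace ℝ E] (D : Set E) : Prop :=
  ∀ p ∈ frontier D, ∃ (U : Set E) (ρ : E → ℝ), IsOpen U ∧ p ∈ U ∧ ContDiffOn ℝ ∞ ρ U ∧
    D ∩ U = {z ∈ U | ρ z < 0} ∧ ∀ q ∈ frontier D ∩ U, fderiv ℝ ρ q ≠ 0

/-- Pseudoconvexity: existence of a continuous plurisubharmonic exhaustion function. -/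
def IsPseudoconvex (D : Set E) : Prop :=
  IsOpen D ∧ ∃ u : E → ℝ, ContinuousOn u D ∧
    (∀ a b : E, (∀ ζ ∈ closedBall (0 : ℂ) 1, a + ζ • b ∈ D) →
      u a ≤ Real.circleAverage (fun ζ => u (a + ζ • b)) 0 1) ∧
    ∀ c : ℝ, IsCompact {z ∈ D | u z ≤ c}

end Q72.QTI
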