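import Mathlib
import Pool.Agent.Q72.Kob.Poly
import Pool.Agent.Q72.QTI.Defs

set_option autoImplicit false

open Metric Set Filter Topology
open scoped ContDiff

namespace Q72.QTI

/-- sublevel sets of norms of holomorphic maps are pseudoconvex -/
theorem ball_preimage_pseudoconvex {E : Type*} [NormedAddCommGroup E] [NormedSpace ℂ E]
    [FiniteDimensional ℂ E] {H : Type*} [NormedAddCommGroup H] [InnerProductSpace ℂ H]
    [Nontrivial H]
    {G : E → H} (hG : Differentiable ℂ G) (hb : Bornology.IsBounded {z | ‖G z‖ < 1}) :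
    IsPseudoconvex {z | ‖G z‖ < 1} := by
  have hc : Continuous fun z => ‖G z‖ := hG.continuous.norm
  have hin : ∀ c : H, ‖c‖ = 1 → ∀ z, ‖inner ℂ c (G z)‖ ≤ ‖G z‖ := by
    intro c hc z
    have := norm_inner_le_norm (𝕜 := ℂ) c (G z)
    rwa [hc, one_mul] at this
  refine Q72.Kob.isPseudoconvex_of_family (ι := {c : H // ‖c‖ = 1})
    (isOpen_lt hc continuous_const) (fun c z => 1 / (1 - inner ℂ (c : H) (G z))) ?_
    (fun z => 1 / (1 - ‖G z‖)) ?_ ?_ ?_ ?_
  · intro c z hz
    apply DifferentiableAt.differentiableWithinAt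
    simp only [one_div]
    have h1 : Differentiable ℂ fun z => inner ℂ (c : H) (G z) := by
      have := (innerSL ℂ (c : H)).differentiable.comp hG
      exact this
    apply DifferentiableAt.inv ((h1 z).const_sub _)
    intro h0
    have h2 := hin c c.2 z
    rw [← sub_eq_zero.1 h0, norm_one] at h2
    exact absurd hz (not_lt.2 h2)
  · intro z hz
    apply ContinuousAt.continuousWithinAt
    apply ContinuousAt.div continuousAt_const (continuousAt_const.sub hc.continuousAt)
    have : ‖G z‖ < 1 := hz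
    exact (sub_pos.2 this).ne'
  · intro c z hz
    have hz' : ‖G z‖ < 1 := hz
    rw [norm_div, norm_one]
    apply one_div_le_one_div_of_le (by linarith)
    have h1 := norm_sub_norm_le (1 : ℂ) (inner ℂ (c : H) (G z))
    have h2 := hin c c.2 z
    rw [norm_one] at h1
    linarith
  · intro z hz c hcle
    have hz' : ‖G z‖ < 1 := hz
    by_cases h0 : G z = 0
    · obtain ⟨y, hy⟩ := exists_ne (0 : H)
      have hy' : ‖y‖ ≠ 0 := norm_ne_zero_iff.2 hy
      have := hcle ⟨(‖y‖ : ℂ)⁻¹ • y, by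
        rw [norm_smul, norm_inv, Complex.norm_real, norm_norm, inv_mul_cancel₀ hy']⟩
      simp only [h0, inner_zero_right, sub_zero, div_one, norm_one, norm_zero] at this ⊢
      exact this
    · have hne : ‖G z‖ ≠ 0 := norm_ne_zero_iff.2 h0
      have hnc : (‖G z‖ : ℂ) ≠ 0 := by exact_mod_cast hne
      have h1 := hcle ⟨(‖G z‖ : ℂ)⁻¹ • G z, by
        rw [norm_smul, norm_inv, Complex.norm_real, norm_norm, inv_mul_cancel₀ hne]⟩
      have h2 : inner ℂ ((‖G z‖ : ℂ)⁻¹ • G z) (G z) = (‖G z‖ : ℂ) := by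
        rw [inner_smul_left, inner_self_eq_norm_sq_to_K, map_inv₀, Complex.conj_ofReal]
        field_simp
        rfl
      simp only [h2] at h1
      have h3 : (1 : ℂ) - (‖G z‖ : ℂ) = ((1 - ‖G z‖ : ℝ) : ℂ) := by push_cast; ring
      rw [h3, norm_div, norm_one, Complex.norm_real, Real.norm_of_nonneg (by linarith)] at h1
      exact h1
  · intro c
    have : ProperSpace E := FiniteDimensional.proper_rclike ℂ E
    apply Metric.isCompact_of_isClosed_isBounded
    · by_cases h0 : 0 < c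
      · have h1 : {z | z ∈ {z | ‖G z‖ < 1} ∧ 1 / (1 - ‖G z‖) ≤ c} = {z | ‖G z‖ ≤ 1 - 1 / c} := by
          ext z
          simp only [mem_ofPred_eq]
          constructor
          · rintro ⟨hz, hle⟩
            rw [div_le_iff₀ (by linarith)] at hle
            have : 1 / c ≤ 1 - ‖G z‖ := by rw [div_le_iff₀ h0]; linarith
            linarith
          · intro hle
            have h2 : 0 < 1 / c := by positivity
            refine ⟨by linarith, ?_⟩
            rw [div_le_iff₀ (by linarith)]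
            have h3 : 1 / c ≤ 1 - ‖G z‖ := by linarith
            rw [div_le_iff₀ h0] at h3
            linarith
        rw [h1]
        exact isClosed_le hc continuous_const
      · have h1 : {z | z ∈ {z | ‖G z‖ < 1} ∧ 1 / (1 - ‖G z‖) ≤ c} = ∅ := by
          ext z
          simp only [mem_ofPred_eq, mem_empty_iff_false, iff_false, not_and, not_le]
          intro hz
          have : 0 < 1 / (1 - ‖G z‖) := one_div_pos.2 (by linarith)
          linarith
        rw [h1]
        exact isClosed_empty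
    · exact hb.subset fun z hz => hz.1

/-- Schwarz-Pick: a quantitative form -/
lemma schwarz_pick {h : ℂ → ℂ} (hd : DifferentiableOn ℂ h (ball 0 1))
    (hm : ∀ ζ ∈ ball (0 : ℂ) 1, ‖h ζ‖ < 1) {a : ℝ} (ha0 : 0 ≤ a) (ha : a < 1) (h0 : h 0 = a)
    {ζ : ℂ} (hζ : ‖ζ‖ ≤ 1 / 2) : 1 - ‖h ζ‖ ^ 2 ≤ 6 * (1 - a) := by
  set F : ℂ → ℂ := fun ζ => (h ζ - a) / (1 - a * h ζ) with hF
  have hne : ∀ ζ ∈ ball (0 : ℂ) 1, (1 : ℂ) - a * h ζ ≠ 0 := by
    intro ζ hζ h1
    have h2 := hm ζ hζ
    have h3 : ‖(a : ℂ) * h ζ‖ < 1 := by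
      rw [norm_mul, Complex.norm_real, Real.norm_of_nonneg ha0]
      nlinarith [norm_nonneg (h ζ)]
    rw [← sub_eq_zero.1 h1, norm_one] at h3
    exact lt_irrefl _ h3
  have hFd : DifferentiableOn ℂ F (ball 0 1) := by
    intro z hz
    exact ((hd z hz).sub_const _).fun_div (((hd z hz).const_mul _).const_sub _) (hne z hz)
  have hF0 : F 0 = 0 := by simp [hF, h0]
  have key : ∀ z : ℂ, ‖(1 : ℂ) - a * z‖ ^ 2 - ‖z - a‖ ^ 2 = (1 - a ^ 2) * (1 - ‖z‖ ^ 2) := by
    intro z
    rw [Complex.sq_norm, Complex.sq_norm, Complex.sq_norm, Complex.normSq_apply,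
      Complex.normSq_apply, Complex.normSq_apply]
    simp only [Complex.sub_re, Complex.sub_im, Complex.one_re, Complex.one_im, Complex.mul_re,
      Complex.mul_im, Complex.ofReal_re, Complex.ofReal_im]
    ring
  have hFm : MapsTo F (ball 0 1) (closedBall 0 1) := by
    intro z hz
    rw [mem_closedBall, dist_zero_right]
    simp only [hF]
    rw [norm_div, div_le_one (norm_pos_iff.2 (hne z hz))]
    have h1 := key (h z)
    have h2 := hm z hz
    have h3 : 0 ≤ (1 - a ^ 2) * (1 - ‖h z‖ ^ 2) := by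
      apply mul_nonneg
      · nlinarith
      · nlinarith [norm_nonneg (h z)]
    exact abs_le_of_sq_le_sq' (by linarith) (norm_nonneg _) |>.2
  have hζ1 : ‖ζ‖ < 1 := by linarith
  have hζb : ζ ∈ ball (0 : ℂ) 1 := by simpa using hζ1
  have h1 := Complex.norm_le_norm_of_mapsTo_ball hFd hFm hF0 hζ1
  have h2 : ‖h ζ - a‖ ≤ 1 / 2 * ‖(1 : ℂ) - a * h ζ‖ := by
    have h3 : ‖F ζ‖ ≤ 1 / 2 := h1.trans hζ
    simp only [hF] at h3
    rw [norm_div, div_le_iff₀ (norm_pos_iff.2 (hne ζ hζb))] at h3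
    exact h3
  have h3 : ‖(1 : ℂ) - a * h ζ‖ ≤ (1 - a ^ 2) + ‖h ζ - a‖ := by
    have e1 : (1 : ℂ) - a * h ζ = ((1 - a ^ 2 : ℝ) : ℂ) - a * (h ζ - a) := by push_cast; ring
    rw [e1]
    refine (norm_sub_le _ _).trans ?_
    rw [Complex.norm_real, Real.norm_of_nonneg (by nlinarith), norm_mul, Complex.norm_real,
      Real.norm_of_nonneg ha0]
    nlinarith [norm_nonneg (h ζ - a)]
  have h4 : a - ‖h ζ‖ ≤ ‖h ζ - a‖ := by
    have := norm_sub_norm_le (a : ℂ) (h ζ)
    rw [Complex.norm_real, Real.norm_of_nonneg ha0, norm_sub_rev] at this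
    exact this
  have h5 := hm ζ hζb
  nlinarith [norm_nonneg (h ζ)]

/-- second order Schwarz lemma for products -/
lemma schwarz_two {f g : ℂ → ℂ} (hf : DifferentiableOn ℂ f (ball 0 1))
    (hg : DifferentiableOn ℂ g (ball 0 1)) (hf0 : f 0 = 0) (hg0 : g 0 = 0) {R : ℝ}
    (hR : ∀ ζ : ℂ, ‖ζ‖ ≤ 1 / 2 → ‖f ζ * g ζ‖ ≤ R) {α : ℂ} (hα : ‖α‖ < 1 / 2) :
    ‖f α * g α‖ ≤ R * (‖α‖ / (1 / 2)) ^ 2 := by
  have hsub : ball (0 : ℂ) (1 / 2) ⊆ ball 0 1 := ball_subset_ball (by norm_num)
  have h0 : (0 : ℂ) ∈ ball (0 : ℂ) 1 := by simp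
  have hfa : DifferentiableAt ℂ f 0 := (hf 0 h0).differentiableAt (isOpen_ball.mem_nhds h0)
  have hga : DifferentiableAt ℂ g 0 := (hg 0 h0).differentiableAt (isOpen_ball.mem_nhds h0)
  have h1 := Complex.dist_le_mul_div_pow_of_mapsTo_ball_of_isLittleO (f := fun ζ => f ζ * g ζ)
    (c := 0) (z := α) (R₁ := 1 / 2) (R₂ := R) (n := 1)
    ((hf.fun_mul hg).mono hsub) (fun ζ hζ => by
      rw [mem_closedBall, hf0, zero_mul, dist_zero_right]
      rw [mem_ball, dist_zero_right] at hζ
      exact hR ζ hζ.le) ?_ (by simpa using hα)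
  · rw [hf0, zero_mul, dist_zero_right, dist_zero_right] at h1
    exact h1
  · have e1 : f =O[𝓝 0] fun w => ‖w - 0‖ := by
      have := hfa.isBigO_sub
      simp only [hf0, sub_zero] at this ⊢
      exact this.norm_right
    have e2 : g =o[𝓝 0] fun _ => (1 : ℝ) := by
      rw [Asymptotics.isLittleO_one_iff]
      have := hga.continuousAt.tendsto
      rwa [hg0] at this
    have e3 := e1.mul_isLittleO e2
    simp only [hf0, zero_mul, sub_zero, pow_one, mul_one] at e3 ⊢
    exact e3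

end Q72.QTI
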