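import Mathlib
import Pool.Agent.Q72.QTI.Proof

set_option autoImplicit false

open Metric Set Filter Topology
open scoped ContDiff

namespace Q72.QTI

variable {n : ℕ}

/-- `ℂ^(n+3)` -/
abbrev X (n : ℕ) := EuclideanSpace ℂ (Fin (n + 3))

lemma two_ne_zero' : (2 : Fin (n + 3)) ≠ 0 := by
  intro h
  have := congrArg Fin.val h
  have h2 : ((2 : Fin (n + 3)) : ℕ) = 2 := by
    show 2 % (n + 3) = 2
    exact Nat.mod_eq_of_lt (by omega)
  rw [h2] at this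
  simp at this

lemma two_ne_one' : (2 : Fin (n + 3)) ≠ 1 := by
  intro h
  have := congrArg Fin.val h
  have h2 : ((2 : Fin (n + 3)) : ℕ) = 2 := by
    show 2 % (n + 3) = 2
    exact Nat.mod_eq_of_lt (by omega)
  have h1 : ((1 : Fin (n + 3)) : ℕ) = 1 := by
    show 1 % (n + 3) = 1
    exact Nat.mod_eq_of_lt (by omega)
  rw [h2, h1] at this
  omega

lemma one_ne_zero' : (1 : Fin (n + 3)) ≠ 0 := by
  intro h
  have := congrArg Fin.val h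
  have h1 : ((1 : Fin (n + 3)) : ℕ) = 1 := by
    show 1 % (n + 3) = 1
    exact Nat.mod_eq_of_lt (by omega)
  rw [h1] at this
  simp at this

/-- weights -/
noncomputable def wt (i : Fin (n + 3)) : ℂ := if i = 1 ∨ i = 2 then 0 else 1

/-- the holomorphic map -/
noncomputable def G (z : X n) : EuclideanSpace ℂ (Fin (n + 3) ⊕ Fin 3) :=
  WithLp.toLp 2 (Sum.elim (fun i => wt i * z i) ![z 1 * z 2, z 1 ^ 3, z 2 ^ 3])

/-- the domain `Σ_{i ≠ 1, 2} |z_i|² + |z_1 z_2|² + |z_1|⁶ + |z_2|⁶ < 1` -/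
def Dom (n : ℕ) : Set (X n) := {z | ‖G z‖ < 1}

lemma normSq_G (z : X n) : ‖G z‖ ^ 2 =
    (∑ i, ‖wt i * z i‖ ^ 2) + ‖z 1 * z 2‖ ^ 2 + ‖z 1‖ ^ 6 + ‖z 2‖ ^ 6 := by
  rw [EuclideanSpace.norm_sq_eq, Fintype.sum_sum_type, Fin.sum_univ_three]
  simp only [G, Sum.elim_inl, Sum.elim_inr, Matrix.cons_val_zero, Matrix.cons_val_one,
    Matrix.cons_val]
  rw [norm_pow, norm_pow, ← pow_mul, ← pow_mul]
  ring

lemma coord_diff (i : Fin (n + 3)) : Differentiable ℂ fun z : X n => z i :=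
  (EuclideanSpace.proj i : X n →L[ℂ] ℂ).differentiable

lemma G_diff : Differentiable ℂ (G : X n → _) := by
  rw [differentiable_euclidean]
  rintro (i | i)
  · simp only [G, Sum.elim_inl]
    exact (coord_diff i).const_mul _
  · simp only [G, Sum.elim_inr]
    fin_cases i
    · exact (coord_diff 1).mul (coord_diff 2)
    · exact (coord_diff 1).pow 3
    · exact (coord_diff 2).pow 3

lemma mem_dom {z : X n} : z ∈ Dom n ↔
    (∑ i, ‖wt i * z i‖ ^ 2) + ‖z 1 * z 2‖ ^ 2 + ‖z 1‖ ^ 6 + ‖z 2‖ ^ 6 < 1 := by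
  rw [← normSq_G]
  show ‖G z‖ < 1 ↔ _
  constructor
  · intro h
    have := norm_nonneg (G z)
    nlinarith
  · intro h
    have := norm_nonneg (G z)
    nlinarith

lemma coord_lt {z : X n} (hz : z ∈ Dom n) (i : Fin (n + 3)) : ‖z i‖ < 1 := by
  rw [mem_dom] at hz
  have h0 : ∀ j : Fin (n + 3), ‖wt j * z j‖ ^ 2 ≤ ∑ i, ‖wt i * z i‖ ^ 2 := fun j =>
    Finset.single_le_sum (f := fun i => ‖wt i * z i‖ ^ 2) (fun i _ => by positivity)
      (Finset.mem_univ j)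
  have hs : 0 ≤ ∑ i, ‖wt i * z i‖ ^ 2 := Finset.sum_nonneg fun i _ => by positivity
  have h1 : 0 ≤ ‖z 1 * z 2‖ ^ 2 := by positivity
  have h2 : 0 ≤ ‖z 1‖ ^ 6 := by positivity
  have h3 : 0 ≤ ‖z 2‖ ^ 6 := by positivity
  by_contra hcon
  push Not at hcon
  by_cases hi : i = 1 ∨ i = 2
  · have h4 : 1 ≤ ‖z i‖ ^ 6 := one_le_pow₀ hcon
    rcases hi with rfl | rfl <;> linarith
  · have h4 := h0 i
    rw [wt, if_neg hi, one_mul] at h4
    have h5 : 1 ≤ ‖z i‖ ^ 2 := one_le_pow₀ hcon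
    linarith

lemma dom_bounded : Bornology.IsBounded (Dom n) := by
  rw [isBounded_iff_forall_norm_le]
  refine ⟨Real.sqrt ((n + 3 : ℕ) * 1), fun z hz => ?_⟩
  rw [EuclideanSpace.norm_eq]
  apply Real.sqrt_le_sqrt
  calc ∑ i, ‖z i‖ ^ 2 ≤ ∑ _i : Fin (n + 3), (1 : ℝ) := by
        apply Finset.sum_le_sum
        intro i _
        have h1 := coord_lt hz i
        have h2 := norm_nonneg (z i)
        nlinarith
    _ = (n + 3 : ℕ) * 1 := by simp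

theorem dom_pseudoconvex : IsPseudoconvex (Dom n) :=
  ball_preimage_pseudoconvex G_diff dom_bounded

lemma scaled (z : X n) (t : ℝ) : ‖G (t • z)‖ ^ 2 =
    t ^ 2 * (∑ i, ‖wt i * z i‖ ^ 2) + t ^ 4 * ‖z 1 * z 2‖ ^ 2 +
      t ^ 6 * (‖z 1‖ ^ 6 + ‖z 2‖ ^ 6) := by
  rw [normSq_G]
  have hc : ∀ i, (t • z) i = (t : ℂ) * z i := fun i => by
    rw [PiLp.smul_apply, Complex.real_smul]
  simp only [hc, norm_mul, Complex.norm_real, Real.norm_eq_abs, Finset.mul_sum, mul_pow]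
  have e : ∀ k : ℕ, |t| ^ (2 * k) = t ^ (2 * k) := fun k => by
    rw [pow_mul, pow_mul, sq_abs]
  have e2 : |t| ^ 2 = t ^ 2 := sq_abs t
  have e6 : |t| ^ 6 = t ^ 6 := e 3
  rw [e2, e6]
  have e1 : (∑ i, ‖wt i‖ ^ 2 * (t ^ 2 * ‖z i‖ ^ 2)) =
      ∑ i, t ^ 2 * (‖wt i‖ ^ 2 * ‖z i‖ ^ 2) := by
    apply Finset.sum_congr rfl
    intro i _
    ring
  rw [e1]
  ring

lemma dom_connected : IsConnected (Dom n) := by
  have h0 : (0 : X n) ∈ Dom n := by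
    rw [mem_dom]; simp
  refine (StarConvex.isPathConnected (a := 0) ?_ h0).isConnected
  rw [starConvex_zero_iff]
  intro z hz t ht0 ht1
  have hz' : ‖G z‖ ^ 2 < 1 := by
    rw [normSq_G]; exact mem_dom.1 hz
  rw [normSq_G] at hz'
  have h1 : ‖G (t • z)‖ ^ 2 < 1 := by
    rw [scaled]
    have hs : 0 ≤ ∑ i, ‖wt i * z i‖ ^ 2 := Finset.sum_nonneg fun i _ => by positivity
    have h1 : 0 ≤ ‖z 1 * z 2‖ ^ 2 := by positivity
    have h2 : 0 ≤ ‖z 1‖ ^ 6 + ‖z 2‖ ^ 6 := by positivity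
    have p2 : t ^ 2 ≤ 1 := pow_le_one₀ ht0 ht1
    have p4 : t ^ 4 ≤ 1 := pow_le_one₀ ht0 ht1
    have p6 : t ^ 6 ≤ 1 := pow_le_one₀ ht0 ht1
    nlinarith
  show ‖G (t • z)‖ < 1
  have := norm_nonneg (G (t • z))
  nlinarith

/-- the defining function -/
noncomputable def rho (z : X n) : ℝ := ‖G z‖ ^ 2 - 1

lemma rho_smooth : ContDiff ℝ ∞ (rho : X n → ℝ) := by
  have h1 : ContDiff ℂ ∞ (G : X n → _) := by
    rw [contDiff_euclidean]
    have hc : ∀ i : Fin (n + 3), ContDiff ℂ ∞ fun z : X n => z i := fun i =>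
      (EuclideanSpace.proj i : X n →L[ℂ] ℂ).contDiff
    rintro (i | i)
    · simp only [G, Sum.elim_inl]
      exact contDiff_const.mul (hc i)
    · simp only [G, Sum.elim_inr]
      fin_cases i
      · exact (hc 1).mul (hc 2)
      · exact (hc 1).pow 3
      · exact (hc 2).pow 3
  have h2 : ContDiff ℝ ∞ (G : X n → _) := h1.restrict_scalars ℝ
  exact (h2.norm_sq ℂ).sub contDiff_const

lemma dom_eq : Dom n = {z | rho z < 0} := by
  ext z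
  rw [mem_dom, ← normSq_G]
  simp [rho]

lemma dom_smooth : HasSmoothBoundary (Dom n) := by
  intro p _
  refine ⟨univ, rho, isOpen_univ, mem_univ _, rho_smooth.contDiffOn, ?_, ?_⟩
  · rw [inter_univ, dom_eq]
    ext z; simp
  · rintro q ⟨hq, _⟩
    have hop : IsOpen (Dom n) := dom_pseudoconvex.1
    rw [hop.frontier_eq] at hq
    have hle : rho q ≤ 0 := by
      have : closure (Dom n) ⊆ {z | rho z ≤ 0} := by
        apply closure_minimal _ (isClosed_le rho_smooth.continuous continuous_const)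
        intro z hz
        rw [dom_eq] at hz
        exact (show rho z < 0 from hz).le
      exact this hq.1
    have hge : 0 ≤ rho q := by
      by_contra h
      push Not at h
      apply hq.2
      rw [dom_eq]; exact h
    have h0 : rho q = 0 := le_antisymm hle hge
    set A := ∑ i, ‖wt i * q i‖ ^ 2 with hA
    set B := ‖q 1 * q 2‖ ^ 2 with hB
    set C := ‖q 1‖ ^ 6 + ‖q 2‖ ^ 6 with hC
    have hA0 : 0 ≤ A := Finset.sum_nonneg fun i _ => by positivity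
    have hB0 : 0 ≤ B := by positivity
    have hC0 : 0 ≤ C := by positivity
    have hsum : A + B + C = 1 := by
      have : ‖G q‖ ^ 2 = 1 := by
        have := h0
        unfold rho at this
        linarith
      rw [normSq_G] at this
      rw [hA, hB, hC]
      linarith
    intro hf
    have hd : DifferentiableAt ℝ rho q := (rho_smooth.differentiable (by simp)) q
    have h1 : HasDerivAt (fun t : ℝ => rho (t • q)) 0 1 := by
      have h2 : HasFDerivAt rho (fderiv ℝ rho q) ((1 : ℝ) • q) := by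
        rw [one_smul]; exact hd.hasFDerivAt
      have h3 : HasDerivAt (fun t : ℝ => t • q) ((1 : ℝ) • q) 1 :=
        (hasDerivAt_id (1 : ℝ)).smul_const q
      have h4 := h2.comp_hasDerivAt 1 h3
      rw [hf] at h4
      exact h4
    have h2 : HasDerivAt (fun t : ℝ => t ^ 2 * A + t ^ 4 * B + t ^ 6 * C - 1)
        (2 * A + 4 * B + 6 * C) 1 := by
      have e1 := ((hasDerivAt_pow 2 (1 : ℝ)).mul_const A)
      have e2 := ((hasDerivAt_pow 4 (1 : ℝ)).mul_const B)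
      have e3 := ((hasDerivAt_pow 6 (1 : ℝ)).mul_const C)
      have e4 := ((e1.fun_add e2).fun_add e3).sub_const 1
      exact e4.congr_deriv (by norm_num)
    have h3 : (fun t : ℝ => rho (t • q)) = fun t : ℝ => t ^ 2 * A + t ^ 4 * B + t ^ 6 * C - 1 := by
      funext t
      rw [rho, scaled]
    rw [h3] at h1
    have h4 := h1.unique h2
    linarith

/-- the test points -/
noncomputable def pt (a b c : ℂ) : X n :=
  WithLp.toLp 2 fun i => if i = 0 then a else if i = 1 then b else if i = 2 then c else 0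

lemma pt_apply (a b c : ℂ) (i : Fin (n + 3)) : (pt a b c : X n) i =
    if i = 0 then a else if i = 1 then b else if i = 2 then c else 0 := rfl
lemma pt_zero (a b c : ℂ) : (pt a b c : X n) 0 = a := by rw [pt_apply, if_pos rfl]
lemma pt_one (a b c : ℂ) : (pt a b c : X n) 1 = b := by
  rw [pt_apply, if_neg one_ne_zero', if_pos rfl]
lemma pt_two (a b c : ℂ) : (pt a b c : X n) 2 = c := by
  rw [pt_apply, if_neg two_ne_zero', if_neg two_ne_one', if_pos rfl]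

lemma pt_mem {a b c : ℂ} : (pt a b c : X n) ∈ Dom n ↔
    ‖a‖ ^ 2 + ‖b * c‖ ^ 2 + ‖b‖ ^ 6 + ‖c‖ ^ 6 < 1 := by
  rw [mem_dom, pt_one, pt_two]
  have : (∑ i, ‖wt i * (pt a b c : X n) i‖ ^ 2) = ‖a‖ ^ 2 := by
    rw [Finset.sum_eq_single 0]
    · rw [pt_zero, wt, if_neg, one_mul]
      rintro (h | h)
      · exact one_ne_zero' h.symm
      · exact two_ne_zero' h.symm
    · intro i _ hi
      by_cases h : i = 1 ∨ i = 2
      · rw [wt, if_pos h]; simp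
      · have h1 : i ≠ 1 := fun h' => h (Or.inl h')
        have h2 : i ≠ 2 := fun h' => h (Or.inr h')
        simp [pt, hi, h1, h2]
    · intro h; exact absurd (Finset.mem_univ _) h
  rw [this]

lemma pt_diff {a b c : ℂ → ℂ} {s : Set ℂ} (ha : DifferentiableOn ℂ a s)
    (hb : DifferentiableOn ℂ b s) (hc : DifferentiableOn ℂ c s) :
    DifferentiableOn ℂ (fun ζ => (pt (a ζ) (b ζ) (c ζ) : X n)) s := by
  rw [differentiableOn_euclidean]
  intro i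
  simp only [pt]
  split_ifs
  · exact ha
  · exact hb
  · exact hc
  · exact differentiableOn_const 0

lemma lempert_le {D : Set (X n)} {φ : ℂ → X n} {α : ℂ} (h1 : DifferentiableOn ℂ φ (ball 0 1))
    (h2 : MapsTo φ (ball 0 1) D) (h3 : ‖α‖ < 1) : lempert D (φ 0) (φ α) ≤ ‖α‖ := by
  apply csInf_le
  · refine ⟨0, ?_⟩
    rintro r ⟨φ, α, _, _, _, _, _, rfl⟩
    exact norm_nonneg _
  · exact ⟨φ, α, h1, h2, h3, rfl, rfl, rfl⟩

variable {ε : ℝ}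

lemma up1 (h0 : 0 < ε) (h1 : ε ≤ 1 / 2) :
    lempert (Dom n) (pt ((1 - ε ^ 12 : ℝ) : ℂ) 0 0)
      (pt ((1 - ε ^ 12 : ℝ) : ℂ) ((ε ^ 4 : ℝ) : ℂ) 0) ≤ ε ^ 2 := by
  have hε12 : ε ^ 12 ≤ 1 := pow_le_one₀ h0.le (by linarith)
  have hε12' : 0 < ε ^ 12 := by positivity
  have hε12'' : ε ^ 12 < 1 := pow_lt_one₀ h0.le (by linarith) (by norm_num)
  have h := lempert_le (D := Dom n)
    (φ := fun ζ => pt ((1 - ε ^ 12 : ℝ) : ℂ) (ζ * ((ε ^ 2 : ℝ) : ℂ)) 0) (α := ((ε ^ 2 : ℝ) : ℂ))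
    (pt_diff (by fun_prop) (by fun_prop) (by fun_prop)) (fun ζ hζ => by
      have hζ' : ‖ζ‖ < 1 := by simpa using hζ
      rw [pt_mem, mul_zero, norm_zero, Complex.norm_real, Real.norm_of_nonneg (by linarith),
        norm_mul, Complex.norm_real, Real.norm_of_nonneg (by positivity), mul_pow]
      have e1 : (ε ^ 2) ^ 6 = ε ^ 12 := by ring
      rw [e1]
      have e2 : ‖ζ‖ ^ 6 ≤ 1 := pow_le_one₀ (norm_nonneg _) hζ'.le
      have e3 : ‖ζ‖ ^ 6 * ε ^ 12 ≤ ε ^ 12 := by nlinarith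
      nlinarith) (by
      rw [Complex.norm_real, Real.norm_of_nonneg (by positivity)]
      exact pow_lt_one₀ h0.le (by linarith) (by norm_num))
  rw [Complex.norm_real, Real.norm_of_nonneg (by positivity)] at h
  have e : ((ε ^ 2 : ℝ) : ℂ) * ((ε ^ 2 : ℝ) : ℂ) = ((ε ^ 4 : ℝ) : ℂ) := by
    rw [← Complex.ofReal_mul]; congr 1; ring
  simp only [e, zero_mul] at h
  exact h

lemma up2 (h0 : 0 < ε) (h1 : ε ≤ 1 / 2) :
    lempert (Dom n) (pt ((1 - ε ^ 12 : ℝ) : ℂ) ((ε ^ 4 : ℝ) : ℂ) 0)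
      (pt ((1 - ε ^ 12 : ℝ) : ℂ) ((ε ^ 4 : ℝ) : ℂ) ((ε ^ 4 : ℝ) : ℂ)) ≤ 2 * ε ^ 2 := by
  have hε12' : 0 < ε ^ 12 := by positivity
  have hε12'' : ε ^ 12 ≤ (1 / 2) ^ 12 := by gcongr
  have hε2 : ε ^ 2 ≤ (1 / 2) ^ 2 := by gcongr
  have h := lempert_le (D := Dom n)
    (φ := fun ζ => pt ((1 - ε ^ 12 : ℝ) : ℂ) ((ε ^ 4 : ℝ) : ℂ) (ζ * ((ε ^ 2 / 2 : ℝ) : ℂ)))
    (α := ((2 * ε ^ 2 : ℝ) : ℂ))
    (pt_diff (by fun_prop) (by fun_prop) (by fun_prop)) (fun ζ hζ => by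
      have hζ' : ‖ζ‖ < 1 := by simpa using hζ
      rw [pt_mem, Complex.norm_real, Real.norm_of_nonneg (by linarith),
        norm_mul, norm_mul, Complex.norm_real, Complex.norm_real,
        Real.norm_of_nonneg (by positivity), Real.norm_of_nonneg (by positivity)]
      have e2 : ‖ζ‖ ^ 6 ≤ 1 := pow_le_one₀ (norm_nonneg _) hζ'.le
      have e3 : ‖ζ‖ ^ 2 ≤ 1 := pow_le_one₀ (norm_nonneg _) hζ'.le
      have e4 : (ε ^ 4 * (‖ζ‖ * (ε ^ 2 / 2))) ^ 2 = ‖ζ‖ ^ 2 * (ε ^ 12 / 4) := by ring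
      have e5 : (ε ^ 4) ^ 6 = ε ^ 12 * ε ^ 12 := by ring
      have e6 : (‖ζ‖ * (ε ^ 2 / 2)) ^ 6 = ‖ζ‖ ^ 6 * (ε ^ 12 / 64) := by ring
      rw [e4, e5, e6]
      have e7 : ‖ζ‖ ^ 2 * (ε ^ 12 / 4) ≤ ε ^ 12 / 4 := by nlinarith
      have e8 : ‖ζ‖ ^ 6 * (ε ^ 12 / 64) ≤ ε ^ 12 / 64 := by nlinarith
      nlinarith) (by
      rw [Complex.norm_real, Real.norm_of_nonneg (by positivity)]
      linarith)
  rw [Complex.norm_real, Real.norm_of_nonneg (by positivity)] at h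
  have e : ((2 * ε ^ 2 : ℝ) : ℂ) * ((ε ^ 2 / 2 : ℝ) : ℂ) = ((ε ^ 4 : ℝ) : ℂ) := by
    rw [← Complex.ofReal_mul]; congr 1; ring
  simp only [e, zero_mul] at h
  exact h

lemma mem_z (h0 : 0 < ε) (h1 : ε ≤ 1 / 2) (t u : ℝ) (ht : 0 ≤ t) (hu : 0 ≤ u) (ht1 : t ≤ 2)
    (hu1 : u ≤ 2) : (pt ((1 - ε ^ 12 : ℝ) : ℂ) ((t * ε ^ 4 : ℝ) : ℂ)
      ((u * ε ^ 4 : ℝ) : ℂ) : X n) ∈ Dom n := by
  have hε12' : 0 < ε ^ 12 := by positivity
  have hε12'' : ε ^ 12 ≤ (1 / 2) ^ 12 := by gcongr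
  rw [pt_mem, norm_mul, Complex.norm_real, Complex.norm_real, Complex.norm_real,
    Real.norm_of_nonneg (by linarith), Real.norm_of_nonneg (by positivity),
    Real.norm_of_nonneg (by positivity)]
  have hε4 : ε ^ 4 ≤ (1 / 2) ^ 4 := by gcongr
  have e1 : (t * ε ^ 4 * (u * ε ^ 4)) ^ 2 = t ^ 2 * u ^ 2 * (ε ^ 12 * ε ^ 4) := by ring
  have e2 : (t * ε ^ 4) ^ 6 = t ^ 6 * (ε ^ 12 * ε ^ 12) := by ring
  have e3 : (u * ε ^ 4) ^ 6 = u ^ 6 * (ε ^ 12 * ε ^ 12) := by ring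
  rw [e1, e2, e3]
  have p1 : t ^ 2 ≤ 2 ^ 2 := by gcongr
  have p2 : u ^ 2 ≤ 2 ^ 2 := by gcongr
  have p3 : t ^ 6 ≤ 2 ^ 6 := by gcongr
  have p4 : u ^ 6 ≤ 2 ^ 6 := by gcongr
  have q1 : t ^ 2 * u ^ 2 * (ε ^ 12 * ε ^ 4) ≤ 2 ^ 2 * 2 ^ 2 * (ε ^ 12 * (1 / 2) ^ 4) := by gcongr
  have q2 : t ^ 6 * (ε ^ 12 * ε ^ 12) ≤ 2 ^ 6 * (ε ^ 12 * (1 / 2) ^ 12) := by gcongr
  have q3 : u ^ 6 * (ε ^ 12 * ε ^ 12) ≤ 2 ^ 6 * (ε ^ 12 * (1 / 2) ^ 12) := by gcongr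
  nlinarith

lemma low (h0 : 0 < ε) (h1 : ε ≤ 1 / 2) :
    ε / 4 ≤ lempert (Dom n) (pt ((1 - ε ^ 12 : ℝ) : ℂ) 0 0)
      (pt ((1 - ε ^ 12 : ℝ) : ℂ) ((ε ^ 4 : ℝ) : ℂ) ((ε ^ 4 : ℝ) : ℂ)) := by
  have hε12' : 0 < ε ^ 12 := by positivity
  have hε12'' : ε ^ 12 ≤ (1 / 2) ^ 12 := by gcongr
  apply le_csInf
  · refine ⟨_, fun ζ => pt ((1 - ε ^ 12 : ℝ) : ℂ) (ζ * ((2 * ε ^ 4 : ℝ) : ℂ))
      (ζ * ((2 * ε ^ 4 : ℝ) : ℂ)), 1 / 2, pt_diff (by fun_prop) (by fun_prop) (by fun_prop),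
      ?_, by norm_num, by simp, ?_, rfl⟩
    · intro ζ hζ
      have hζ' : ‖ζ‖ < 1 := by simpa using hζ
      have h2 := (pt_mem (n := n)).1 (mem_z h0 h1 2 2 (by norm_num) (by norm_num) le_rfl le_rfl)
      rw [pt_mem]
      refine lt_of_le_of_lt ?_ h2
      have e1 : ‖ζ * ((2 * ε ^ 4 : ℝ) : ℂ)‖ ≤ ‖((2 * ε ^ 4 : ℝ) : ℂ)‖ := by
        rw [norm_mul]
        nlinarith [norm_nonneg ((2 * ε ^ 4 : ℝ) : ℂ), norm_nonneg ζ]
      rw [norm_mul (ζ * ((2 * ε ^ 4 : ℝ) : ℂ)), norm_mul ((2 * ε ^ 4 : ℝ) : ℂ)]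
      gcongr
    · have e : (1 / 2 : ℂ) * ((2 * ε ^ 4 : ℝ) : ℂ) = ((ε ^ 4 : ℝ) : ℂ) := by
        push_cast; ring
      beta_reduce
      rw [e]
  · rintro r ⟨φ, α, hφ, hD, hα, hφ0, hφα, rfl⟩
    by_cases hα2 : ‖α‖ < 1 / 2
    swap
    · push Not at hα2
      linarith
    have hco : ∀ i, DifferentiableOn ℂ (fun ζ => φ ζ i) (ball 0 1) := by
      rw [differentiableOn_euclidean] at hφ; exact hφ
    have hin : ∀ ζ ∈ ball (0 : ℂ) 1, ‖φ ζ 0‖ ^ 2 + ‖φ ζ 1 * φ ζ 2‖ ^ 2 < 1 := by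
      intro ζ hζ
      have h2 := mem_dom.1 (hD hζ)
      have h3 : ‖φ ζ 0‖ ^ 2 ≤ ∑ i, ‖wt i * φ ζ i‖ ^ 2 := by
        have := Finset.single_le_sum (f := fun i => ‖wt i * φ ζ i‖ ^ 2)
          (fun i _ => by positivity) (Finset.mem_univ (0 : Fin (n + 3)))
        simp only at this
        rw [wt, if_neg, one_mul] at this
        · exact this
        · rintro (h | h)
          · exact one_ne_zero' h.symm
          · exact two_ne_zero' h.symm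
      have h4 : 0 ≤ ‖φ ζ 1‖ ^ 6 := by positivity
      have h5 : 0 ≤ ‖φ ζ 2‖ ^ 6 := by positivity
      linarith
    have hh0 : φ 0 0 = ((1 - ε ^ 12 : ℝ) : ℂ) := by rw [hφ0, pt_zero]
    have hf0 : φ 0 1 = 0 := by rw [hφ0, pt_one]
    have hg0 : φ 0 2 = 0 := by rw [hφ0, pt_two]
    have hfα : φ α 1 = ((ε ^ 4 : ℝ) : ℂ) := by rw [hφα, pt_one]
    have hgα : φ α 2 = ((ε ^ 4 : ℝ) : ℂ) := by rw [hφα, pt_two]
    have hR : ∀ ζ : ℂ, ‖ζ‖ ≤ 1 / 2 → ‖φ ζ 1 * φ ζ 2‖ ≤ 3 * ε ^ 6 := by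
      intro ζ hζ
      have h2 := schwarz_pick (hco 0) (fun ζ hζ => by
        have := hin ζ hζ
        nlinarith [norm_nonneg (φ ζ 0), sq_nonneg ‖φ ζ 1 * φ ζ 2‖]) (by linarith)
        (by linarith) hh0 hζ
      have hζb : ζ ∈ ball (0 : ℂ) 1 := by
        rw [mem_ball, dist_zero_right]; linarith
      have h3 := hin ζ hζb
      have h4 : ‖φ ζ 1 * φ ζ 2‖ ^ 2 ≤ (3 * ε ^ 6) ^ 2 := by
        have e : (3 * ε ^ 6) ^ 2 = 9 * ε ^ 12 := by ring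
        rw [e]
        linarith
      exact abs_le_of_sq_le_sq' h4 (by positivity) |>.2
    have h2 := schwarz_two (hco 1) (hco 2) hf0 hg0 hR hα2
    rw [hfα, hgα, norm_mul, Complex.norm_real, Real.norm_of_nonneg (by positivity)] at h2
    have e1 : 3 * ε ^ 6 * (‖α‖ / (1 / 2)) ^ 2 = ε ^ 6 * (12 * ‖α‖ ^ 2) := by ring
    have e2 : ε ^ 4 * ε ^ 4 = ε ^ 6 * ε ^ 2 := by ring
    rw [e1, e2] at h2
    have h3 : ε ^ 2 ≤ 12 * ‖α‖ ^ 2 := le_of_mul_le_mul_left h2 (by positivity)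
    have h4 : (ε / 4) ^ 2 ≤ ‖α‖ ^ 2 := by nlinarith
    exact abs_le_of_sq_le_sq' h4 (norm_nonneg _) |>.2

end Q72.QTI
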